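import Pool.Agent.Helper83.CK.St

/-! Project CK (MP_f663dd_lc), module Q (helper64). -/

set_option autoImplicit false

namespace Pool.Agent.Helper64.CK

open Pool.Agent.Helper83.CK Cardinal Set

universe u

theorem iter_ge (m : ℕ) (c : Cardinal.{u}) : c ≤ Order.succ^[m] c := by
  induction m with
  | zero => exact le_rfl
  | succ m ih =>
    rw [Function.iterate_succ_apply']
    exact ih.trans (Order.le_succ _)

theorem mid {α : Type u} (K M : Set α) (c : Cardinal.{u}) (hKM : K ⊆ M) (hc0 : ℵ₀ ≤ c)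
    (hK : #K ≤ c) (hM : c ≤ #M) : ∃ M' : Set α, K ⊆ M' ∧ M' ⊆ M ∧ #M' = c := by
  obtain ⟨S, hSM, hS⟩ := Cardinal.le_mk_iff_exists_subset.mp hM
  refine ⟨K ∪ S, subset_union_left, union_subset hKM hSM, le_antisymm ?_ ?_⟩
  · calc #(K ∪ S : Set α) ≤ #K + #S := mk_union_le K S
      _ ≤ c + c := add_le_add hK hS.le
      _ = c := add_eq_self hc0
  · rw [← hS]
    exact mk_le_mk_of_subset subset_union_right

theorem aux (hP : StP.{u}) : ∀ (m : ℕ) (α : Type u) (K M : Set α), K ⊆ M → ℵ₀ ≤ #K →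
    #M = Order.succ^[m] #K →
    ∃ h : ℕ → (ℕ → α) → α, ∀ A : Set α,
      (∀ (j : ℕ) (x : ℕ → α), (∀ n, x n ∈ A) → h j x ∈ A) →
      #(A ∩ M : Set α) ≤ Order.succ^[m] (max ℵ₀ #(A ∩ K : Set α)) := by
  intro m
  induction m with
  | zero =>
    intro α K M hKM hK hM
    obtain ⟨e⟩ := Cardinal.eq.mp hM
    classical
    refine ⟨fun _ x => if hx : x 0 ∈ M then (e ⟨x 0, hx⟩ : α) else x 0, fun A hA => ?_⟩
    have key : ∀ a : (A ∩ M : Set α), (e ⟨a.1, a.2.2⟩ : α) ∈ A ∩ K := by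
      intro a
      refine ⟨?_, (e ⟨a.1, a.2.2⟩).2⟩
      have h1 := hA 0 (fun _ => a.1) (fun _ => a.2.1)
      simp only [dif_pos a.2.2] at h1
      exact h1
    have hle : #(A ∩ M : Set α) ≤ #(A ∩ K : Set α) := by
      apply mk_le_of_injective (f := fun a : (A ∩ M : Set α) =>
        (⟨(e ⟨a.1, a.2.2⟩ : α), key a⟩ : (A ∩ K : Set α)))
      intro a b hab
      have h1 : (e ⟨a.1, a.2.2⟩ : α) = (e ⟨b.1, b.2.2⟩ : α) := by
        have := Subtype.ext_iff.mp hab
        simpa using this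
      have h2 : (⟨a.1, a.2.2⟩ : M) = ⟨b.1, b.2.2⟩ := e.injective (Subtype.ext h1)
      have h3 : a.1 = b.1 := by simpa using h2
      exact Subtype.ext h3
    exact hle.trans (le_max_right _ _)
  | succ m ih =>
    intro α K M hKM hK hM
    rw [Function.iterate_succ_apply'] at hM
    have hge := iter_ge m #K
    obtain ⟨M', hKM', hM'M, hM'⟩ := mid K M (Order.succ^[m] #K) hKM (hK.trans hge) hge
      (by rw [hM]; exact Order.le_succ _)
    obtain ⟨h', hh'⟩ := ih α K M' hKM' hK hM'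
    obtain ⟨h'', hh''⟩ := hP α M' M hM'M (by rw [hM']; exact hK.trans hge) (by rw [hM', hM])
    refine ⟨fun j => Nat.casesOn j h'' (fun i => h' i), fun A hA => ?_⟩
    have h1 := hh'' A (fun x hx => hA 0 x hx)
    have h2 := hh' A (fun j x hx => hA (j + 1) x hx)
    rw [Function.iterate_succ_apply']
    refine h1.trans (Order.succ_le_succ (max_le ?_ h2))
    exact (le_max_left _ _).trans (iter_ge m _)

theorem mQ : StP.{u} → StQ.{u} := by
  intro hP m α K hK hα
  obtain ⟨h, hh⟩ := aux hP m α K Set.univ (subset_univ K) hK (by rw [mk_univ]; exact hα)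
  refine ⟨h, fun A hA => ?_⟩
  have h1 := hh A hA
  rwa [inter_univ] at h1

end Pool.Agent.Helper64.CK
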